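import Pool.Agent.T3h87.RP.Jac4

/-!
# The residue formula for Frobenius averages on `H²` for almost all members of sparse families of fibrations in products of Jacobians

Let `m ≥ 1`, `F_1, ..., F_r` polynomials in `t = (t_1, ..., t_m)` and `x` over `ℤ`, monic of odd degrees `2 g_j + 1` in `x`, and
`h_(j,1), ..., h_(j,D)`, for `j ≤ r`, polynomials of smaller degree in `x`.  For `c = (c_1, ..., c_D)` let `C_j` be the fibration in
hyperelliptic curves `y² = F_j(t, x) + ∑ c_k h_(j,k)(t, x)` of genus `g_j` over the affine space with the coordinates `t`, and `J_j`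
the fibration in their Jacobians, abelian varieties of dimension `g_j`.  For `e : {1, ..., n} → {1, ..., r}` we study the
abelian fibration `X = J_(e 1) × ... × J_(e n)`.  `H¹(J_j) = H¹(C_j)` and `H²` of an abelian variety is the exterior square of
`H¹`.  So the trace of the Frobenius on `H²` of the fibre of `X` over a point `t` over `𝔽_p` is
`∑_i (a_(e i)(t)² - a_(e i)(t; p²)) / 2 + ∑_(i<j) a_(e i)(t) a_(e j)(t)`, where `a_j(t)` is the trace of the Frobenius on `H¹` of the
curve and `a_j(t; p²)` the trace of its square: they are `p + 1`, `p² + 1` minus the numbers of points over the fields with `p` and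
`p²` elements.  The average over all `t` is the number `𝔅_p` of the problem.

According to the problem the series `∑ 𝔅_p log(p) p ^ (-z)` has the residue `rank NS(X/ℚ(t))` at `z = 2`.  For a general member the
Jacobians have no other endomorphisms than the integers and are not isogenous to each other, and `rank NS(X/ℚ(t)) = ρ`, the sum of `n`
and of the number of the pairs `i < j` with `e i = e j`.

The coefficients `c_1, ..., c_D` are independent random members of sparse families of integers, of the six kinds `Kind` (in the file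
`Pool.Agent.T3h87.LT.Kinds`): automatic sets (for example missing digits); random integers whose blocks of digits can be exchanged;
rearrangements of given digits; palindromes; residues with small Fourier coefficients; integer parts of functions of non-integral
order.  `Fam` is a random integer, given by finitely many values with weights, with a size.  We show that with very few exceptions
the sums `∑ w(p) (𝔅_p - ρ p) log p` over the primes `p ≤ x` are at most `x ^ (1 + δ)`, with all the weights of an arbitrary sequence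
of weights (their number may be as large as a small power of `x`; for example all Dirichlet characters of small moduli, or `p ^ (i τ)`)
and without an arbitrary set of bad primes: as if the series and its twists differed from those of `ρ p` by a function which is
holomorphic and of subpolynomial growth for `Re z > 1`.

The polynomials `h_(j,k)` are assumed to be `Free` for almost all `p`: at two different points `t`, `t'` there is a combination
of the `h_(j,k)` which is `1` (or `x`) on the fibre over `t` and `0` on the fibre over `t'`, and such that the same combinations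
for the other curves are `0` on both fibres.

Method: the mean over all the polynomials `f + s_0 + s_1 x` of the trace on the exterior square is exactly `p - 1`; by `Free` the
traces on different fibres are uncorrelated.  So the function `(𝔅_p - ρ p) / √p` has a bounded second moment over all residues
(`Pool.Agent.T3h87.RP.Jac2`), its size is at most `√p` by Weil's theorem over the fields with `p` and `p²` elements, and sums of such
local functions are close to the sums of the means for almost all members of sparse families (`Pool.Agent.T3h87.LT`).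
-/

set_option autoImplicit false

namespace Pool.Agent.Results.MP_6090f9_nt.SparseJacobians

open Finset Polynomial Filter
open Pool.Agent.T3h87.LT (Fam Kind)

section
variable {m D n r : ℕ}

/-- The polynomial `F + ∑ c_k h_k`, in the variable `x` over the ring of the polynomials in the variables `t_1, ..., t_m`. -/
noncomputable def member (F : (MvPolynomial (Fin m) ℤ)[X]) (h : Fin D → (MvPolynomial (Fin m) ℤ)[X]) (c : Fin D → ℤ) :
    (MvPolynomial (Fin m) ℤ)[X] := F + ∑ i, C (MvPolynomial.C (c i)) * h i

/-- The polynomial `F(t, x)` in `x` for a point `t` over the field `κ`. -/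
noncomputable def fibre (κ : Type) [CommRing κ] (F : (MvPolynomial (Fin m) ℤ)[X]) (t : Fin m → κ) : κ[X] :=
  F.map (MvPolynomial.eval₂Hom (Int.castRingHom κ) t)

/-- The trace of the Frobenius on `H¹` of the projective curve `y² = F(t, x)` over the finite field `κ`, if it is smooth: the number
of the elements of `κ` plus one minus the number of its points; there is one point at infinity. -/
noncomputable def traceOne (κ : Type) [CommRing κ] (F : (MvPolynomial (Fin m) ℤ)[X]) (t : Fin m → κ) : ℝ :=
  Nat.card κ - Nat.card {P : κ × κ // P.2 ^ 2 = (fibre κ F t).eval P.1}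

/-- The trace of the Frobenius over `ℤ / p` on `H²` of the Jacobian of the curve `y² = F(t, x)`, the exterior square of `H¹`: half of
the difference of the square of the trace on `H¹` and of the trace of the square of the Frobenius, for the field with `p²`
elements. -/
noncomputable def traceJac (p : ℕ) [Fact p.Prime] (F : (MvPolynomial (Fin m) ℤ)[X]) (t : Fin m → ZMod p) : ℝ :=
  (traceOne (ZMod p) F t ^ 2 - traceOne (GaloisField p 2) F (fun l => algebraMap (ZMod p) (GaloisField p 2) (t l))) / 2

/-- The trace of the Frobenius on `H²` of the product of the Jacobians of the `n` curves `y² = F_i(t, x)`, if they are smooth. -/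
noncomputable def traceTwo (p : ℕ) [Fact p.Prime] (F : Fin n → (MvPolynomial (Fin m) ℤ)[X]) (t : Fin m → ZMod p) : ℝ :=
  ∑ i, traceJac p (F i) t +
    ∑ q ∈ (univ : Finset (Fin n × Fin n)) with q.1 < q.2, traceOne (ZMod p) (F q.1) t * traceOne (ZMod p) (F q.2) t

open Classical in
/-- The average `𝔅_p` of the traces on `H²` of the fibres over all points `t` of the affine space over `ℤ / p`, for a prime `p`. -/
noncomputable def average (F : Fin n → (MvPolynomial (Fin m) ℤ)[X]) (p : ℕ) : ℝ :=
  if hp : p.Prime then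
    haveI : Fact p.Prime := ⟨hp⟩
    (∑ᶠ t : Fin m → ZMod p, traceTwo p F t) / (p : ℝ) ^ m
  else 0

/-- The number `ρ`: the sum of `n` and of the number of the pairs `i < j` with `e i = e j`. -/
def rho (e : Fin n → Fin r) : ℕ := n + ((univ : Finset (Fin n × Fin n)).filter fun q => q.1 < q.2 ∧ e q.1 = e q.2).card

open Classical in
/-- The sum `∑ w(p) (𝔅_p - ρ p) log p` over the primes `p ≤ x` which are not in `R`. -/
noncomputable def partialSum (F : Fin n → (MvPolynomial (Fin m) ℤ)[X]) (ρ : ℝ) (w : ℕ → ℝ) (x : ℕ) (R : Set ℕ) : ℝ :=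
  ∑ p ∈ (range (x + 1)).filter (fun p => p.Prime ∧ p ∉ R), w p * ((average F p - ρ * p) * Real.log p)

/-- The combination `∑ c_k h_k(t, x)`, a polynomial in `x` over `ℤ / p`. -/
noncomputable def combination (p : ℕ) (h : Fin D → (MvPolynomial (Fin m) ℤ)[X]) (c : Fin D → ZMod p) (t : Fin m → ZMod p) :
    (ZMod p)[X] := ∑ k, C (c k) * fibre (ZMod p) (h k) t

/-- For all curves `i`, all points `t ≠ t'` over `ℤ / p` and `a = 0, 1` there is a combination of the `h_(i,k)` which is `x ^ a` on
the fibre over `t` and `0` on the fibre over `t'`, and such that the same combinations of the `h_(j,k)`, `j ≠ i`, are zero on both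
fibres. -/
def Free (p : ℕ) (h : Fin r → Fin D → (MvPolynomial (Fin m) ℤ)[X]) : Prop :=
  ∀ (i : Fin r) (t t' : Fin m → ZMod p), t ≠ t' → ∀ a : ℕ, a ≤ 1 → ∃ c : Fin D → ZMod p,
    combination p (h i) c t = X ^ a ∧ (∀ j, j ≠ i → combination p (h j) c t = 0) ∧ ∀ j, combination p (h j) c t' = 0

/-- The polynomials of the `n` factors of the product with the coefficients `c`. -/
noncomputable def factors (F : Fin r → (MvPolynomial (Fin m) ℤ)[X]) (h : Fin r → Fin D → (MvPolynomial (Fin m) ℤ)[X])
    (e : Fin n → Fin r) (c : Fin D → ℤ) (i : Fin n) : (MvPolynomial (Fin m) ℤ)[X] := member (F (e i)) (h (e i)) c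

/-- For all weights `w j` with `(j + 1) ^ K ≤ x` and all sets `R` of primes which divide `Z(c)`: the sum of
`w(p) (𝔅_p - ρ p) log p` over the primes `p ≤ x` outside `R` is at most `x ^ (1 + δ)` in absolute value. -/
def Good (F : Fin r → (MvPolynomial (Fin m) ℤ)[X]) (h : Fin r → Fin D → (MvPolynomial (Fin m) ℤ)[X]) (e : Fin n → Fin r)
    (Z : MvPolynomial (Fin D) ℤ) (δ : ℝ) (K : ℕ) (w : ℕ → ℕ → ℝ) (x : ℕ) (c : Fin D → ℤ) : Prop :=
  ∀ j : ℕ, (j + 1) ^ K ≤ x → ∀ R : Set ℕ, (∀ p ∈ R, (p : ℤ) ∣ MvPolynomial.eval c Z) →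
    |partialSum (factors F h e c) (rho e) (w j) x R| ≤ (x : ℝ) ^ (1 + δ)

open Classical in
/-- Let `𝓕₁, ..., 𝓕_D` be kinds of sparse families (`Kind`) and `0 < δ ≤ 1`. There are `W`, `a`, `K` and `η > 0` such that for all
`κ₁, ..., κ_D ≠ 0` and all sufficiently large `X` the following holds for all members `f l` of `𝓕 l (κ l)` and all sequences of
weights `w j` with values in `[-1, 1]`. Let `c₁, ..., c_D` be independent random integers, `c_l` with the distribution of `f l`.
Up to a probability of at most `X ^ (-η) ∑ (1 + |log Z_l|) ^ a`, where `Z_l` is the size of `f l`, the member of the system with the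
coefficients `c` is `Good` for ALL `x ≥ X` with `x ^ W ≤ Z_l` for all `l`. -/
def Holds (F : Fin r → (MvPolynomial (Fin m) ℤ)[X]) (h : Fin r → Fin D → (MvPolynomial (Fin m) ℤ)[X]) (e : Fin n → Fin r)
    (Z : MvPolynomial (Fin D) ℤ) : Prop :=
  ∀ 𝓕 : Fin D → ℤ → Set Fam, (∀ l, Kind (𝓕 l)) → ∀ δ : ℝ, 0 < δ → δ ≤ 1 →
    ∃ (W a K : ℕ) (η : ℝ), 1 ≤ W ∧ 1 ≤ K ∧ 0 < η ∧ ∀ κ : Fin D → ℤ, (∀ l, κ l ≠ 0) → ∃ X₀ : ℕ, ∀ X : ℕ, X₀ ≤ X →
    ∀ f : Fin D → Fam, (∀ l, f l ∈ 𝓕 l (κ l)) → ∀ w : ℕ → ℕ → ℝ, (∀ j p, |w j p| ≤ 1) →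
      ∑ i ∈ (Fintype.piFinset fun l => (f l).set).filter (fun i => ¬ ∀ x : ℕ, X ≤ x → (∀ l, (x : ℝ) ^ W ≤ (f l).size) →
        Good F h e Z δ K w x (fun l => (f l).val (i l))), ∏ l, (f l).wt (i l) ≤
      (∑ l, (1 + |Real.log (f l).size|) ^ a) * (X : ℝ) ^ (-η)

lemma traceOne_eq {κ : Type} [CommRing κ] (F : (MvPolynomial (Fin m) ℤ)[X]) (t : Fin m → κ) :
    traceOne κ F t = Pool.Agent.T3h87.RP.t1 (Int.castRingHom κ) F t := rfl

lemma average_eq (F : Fin n → (MvPolynomial (Fin m) ℤ)[X]) (p : ℕ) (hp : p.Prime) :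
    average F p = Pool.Agent.T3h87.RP.BJ p F := by
  have hF : Fact p.Prime := ⟨hp⟩
  rw [Pool.Agent.T3h87.RP.BJ_eq, ← finsum_eq_sum_of_fintype]
  unfold average
  rw [dif_pos hp]
  rfl

lemma rho_eq (e : Fin n → Fin r) : (rho e : ℝ) = (n : ℝ) + ((Pool.Agent.T3h87.RP.pairs n).filter fun p => e p.1 = e p.2).card := by
  unfold rho Pool.Agent.T3h87.RP.pairs
  rw [filter_filter]
  push_cast
  rfl

open Classical in
lemma partialSum_eq (F : Fin n → (MvPolynomial (Fin m) ℤ)[X]) (ρ : ℝ) (w : ℕ → ℝ) (x : ℕ) (R : Set ℕ) :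
    partialSum F ρ w x R = ∑ p ∈ (Pool.Agent.R459.Eq.pri x).filter (fun p => p ∉ R), w p *
      ((Pool.Agent.T3h87.RP.BJ p F - ρ * p) * Real.log p) := by
  have h1 : (range (x + 1)).filter (fun p => p.Prime ∧ p ∉ R) = (Pool.Agent.R459.Eq.pri x).filter (fun p => p ∉ R) := by
    ext p
    simp only [mem_filter, mem_range, Pool.Agent.R459.Eq.mem_pri]
    constructor
    · rintro ⟨h1, h2, h3⟩
      exact ⟨⟨by omega, h2⟩, h3⟩
    · rintro ⟨⟨h1, h2⟩, h3⟩
      exact ⟨by omega, h2, h3⟩
  unfold partialSum
  rw [h1]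
  exact sum_congr rfl fun p hp => by rw [average_eq F p (Pool.Agent.R459.Eq.mem_pri.1 (mem_filter.1 hp).1).2]

theorem holds_main (hm : 1 ≤ m) (F : Fin r → (MvPolynomial (Fin m) ℤ)[X]) (h : Fin r → Fin D → (MvPolynomial (Fin m) ℤ)[X])
    (e : Fin n → Fin r) (hF : ∀ j, (F j).Monic) (ho : ∀ j, Odd (F j).natDegree) (hh : ∀ j k, (h j k).natDegree < (F j).natDegree)
    (S : Set ℕ) (hS : S.Finite) (hs : ∀ p : ℕ, p.Prime → p ∉ S → Pool.Agent.T3h87.RP.FrO p h) (Z : MvPolynomial (Fin D) ℤ)
    (hZ : Z ≠ 0) : Holds F h e Z := by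
  classical
  intro 𝓕 h𝓕 δ hδ hδ1
  obtain ⟨W, a, K, η, hW, hK, hη, H⟩ := Pool.Agent.T3h87.RP.jacS hm F h e hF ho hh 0 S hS
    (fun p hp hpS i j => Pool.Agent.T3h87.RP.sepP_of hp (hs p hp hpS) i j)
    (fun p hp hpS j => Pool.Agent.T3h87.RP.fewP_of hm hp (hs p hp hpS) j)
    (fun p hp hpS j => Pool.Agent.T3h87.RP.frP_of (hs p hp hpS) j) 𝓕 h𝓕 Z hZ δ hδ hδ1
  refine ⟨W, a, K, η, hW, hK, hη, fun κ hκ => ?_⟩
  obtain ⟨X₀, _, J⟩ := H κ hκ
  refine ⟨X₀, fun X hX f hf w hw => ?_⟩
  refine J X hX f hf w hw _ (filter_subset _ _) fun i hi => ?_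
  have h1 := (mem_filter.1 hi).2
  unfold Good at h1
  push Not at h1
  obtain ⟨x, q1, q2, j, q3, R, q4, q5⟩ := h1
  refine ⟨x, q1, q2, j, q3, R, q4, ?_⟩
  rw [partialSum_eq, rho_eq] at q5
  exact q5

end

section explicit
variable {r : ℕ}

/-- The exponents `(j, a, α)` with `j ≤ r`, `a < d_j` and `α_l ≤ b` for `1 ≤ l ≤ m`. -/
abbrev Exponents (d : Fin r → ℕ) (b m : ℕ) : Type := Σ j : Fin r, Fin (d j) × (Fin m → Fin (b + 1))

/-- The polynomial `x ^ a t ^ α` for the parameter number `(j, a, α)` and the curve number `i = j`, and `0` for the other curves. -/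
noncomputable def monomialOf {d : Fin r → ℕ} {b m : ℕ} (i : Fin r) (k : Exponents d b m) : (MvPolynomial (Fin m) ℤ)[X] :=
  if k.1 = i then X ^ (k.2.1 : ℕ) * C (∏ l, MvPolynomial.X l ^ (k.2.2 l : ℕ)) else 0

end explicit

/-- **Part 1.** Let `m ≥ 1`, `F_1, ..., F_r` polynomials in `x` and `t = (t_1, ..., t_m)` over `ℤ` which are monic of odd degree in
`x`, and `h_(j,k)`, `j ≤ r`, `k ≤ D`, polynomials of degree less than that of `F_j` in `x`, which are `Free` for all but finitely many
primes `p`.  Let `e : {1, ..., n} → {1, ..., r}` be any map.  Then `Holds`, for every nonzero polynomial `Z`: for the fibrations in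
the products of the Jacobians of the `n` curves `y² = F_(e i)(t, x) + ∑ c_k h_(e i,k)(t, x)`, where `c_1, ..., c_D` are independent
random members of sparse families, the sums `∑ w(p) (𝔅_p - ρ p) log p`, `p ≤ x`, are at most `x ^ (1 + δ)` for all `x` between `X` and
a fixed power of the sizes, with a very small probability of an exception.

**Part 2.** This is the case for the products of the Jacobians of the curves `C_1, ..., C_r : y² = x ^ d_j + G_j(t, x)`, each of them
to an arbitrary power, where the `G_j` are independent polynomials with all the monomials `x ^ a t ^ α` with `a < d_j` and `α_l ≤ b`,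
for odd `d_j ≥ 3` and `b ≥ 1` (`E` is an enumeration of the parameters, the coefficients of all the `G_j`). -/
theorem result :
    (∀ (m D n r : ℕ), 1 ≤ m → ∀ (F : Fin r → (MvPolynomial (Fin m) ℤ)[X]) (h : Fin r → Fin D → (MvPolynomial (Fin m) ℤ)[X]),
      (∀ j, (F j).Monic) → (∀ j, Odd (F j).natDegree) → (∀ j k, (h j k).natDegree < (F j).natDegree) → ∀ S : Set ℕ, S.Finite →
      (∀ p : ℕ, p.Prime → p ∉ S → Free p h) →
      ∀ (e : Fin n → Fin r) (Z : MvPolynomial (Fin D) ℤ), Z ≠ 0 → Holds F h e Z) ∧
    (∀ (m D n r b : ℕ) (d : Fin r → ℕ), 1 ≤ m → 1 ≤ b → (∀ j, Odd (d j) ∧ 3 ≤ d j) → ∀ E : Fin D ≃ Exponents d b m,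
      ∀ (e : Fin n → Fin r) (Z : MvPolynomial (Fin D) ℤ), Z ≠ 0 → Holds (fun j => X ^ d j) (fun j k => monomialOf j (E k)) e Z) := by
  refine ⟨fun m D n r hm F h hF ho hh S hS hs e Z hZ => holds_main hm F h e hF ho hh S hS hs Z hZ,
    fun m D n r b d hm hb hd E e Z hZ => ?_⟩
  refine holds_main hm _ _ e (fun j => monic_X_pow _) (fun j => ?_) (fun j k => ?_) ∅ Set.finite_empty (fun p hp _ => ?_) Z hZ
  · rw [natDegree_X_pow]
    exact (hd j).1
  · rw [natDegree_X_pow]
    exact Pool.Agent.T3h87.RP.hp_deg d b m ℤ j (by have := (hd j).2; omega) (E k)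
  · exact Pool.Agent.T3h87.RP.frO_p E (fun j => by have := (hd j).2; omega) hb p hp

end Pool.Agent.Results.MP_6090f9_nt.SparseJacobians
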