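import Pool.Agent.T3h87.RP.Sp2

/-!
# The residue formula for Frobenius averages on `H²` for almost all members of sparse families of fibrations in products of curves

Let `m ≥ 1`, `F_1, ..., F_r` polynomials in `t = (t_1, ..., t_m)` and `x` over `ℤ`, monic of odd degrees in `x`, and
`h_(j,1), ..., h_(j,D)`, for `j ≤ r`, polynomials of smaller degree in `x`.  For `c = (c_1, ..., c_D)` let `C_j` be the fibration in
hyperelliptic curves `y² = F_j(t, x) + ∑ c_k h_(j,k)(t, x)` over the affine space with the coordinates `t` (some of the `h_(j,k)` may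
be zero: the curves may depend on different parameters).  For `e : {1, ..., n} → {1, ..., r}` we study the fibration in the products
`X = C_(e 1) × ... × C_(e n)`.  By the formula of Künneth `H²` of the fibre over a point `t` over `𝔽_p` is the sum of `n` lines and of
the tensor products `H¹ ⊗ H¹` of the pairs of factors; the trace of the Frobenius is `n p + ∑ a_(e i)(t) a_(e j)(t)`, `i < j`, with
the traces `a_j(t)` on `H¹` of the curves.  The average over all `t` is the number `𝔅_p` of the problem.

According to the problem the series `∑ 𝔅_p log(p) p ^ (-z)` has the residue `rank NS(X/ℚ(t))` at `z = 2`, where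
`rank NS(X/ℚ(t)) = n + ∑ rank Hom(J_(e i), J_(e j))`, `i < j`; for a general member this is `ρ`, the sum of `n` and the number of the
pairs `i < j` with `e i = e j`.

The coefficients `c_1, ..., c_D` are independent random members of sparse families of integers, of the six kinds `Kind` (in the file
`Pool.Agent.T3h87.LT.Kinds`): automatic sets (for example missing digits); random integers whose blocks of digits can be exchanged;
rearrangements of given digits; palindromes; residues with small Fourier coefficients; integer parts of functions of non-integral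
order.  `Fam` is a random integer, given by finitely many values with weights, with a size.  We show that with very few exceptions
the sums `∑ w(p) (𝔅_p - ρ p) log p` over the primes `p ≤ x` are at most `x ^ (1 + δ)`, with all the weights of an arbitrary sequence
of weights (their number may be as large as a small power of `x`; for example all Dirichlet characters of small moduli, or `p ^ (i τ)`)
and without an arbitrary set of bad primes: as if the series and its twists differed from those of `ρ p` by a function which is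
holomorphic and of subpolynomial growth for `Re z > 1`.

Method: for functions of the residues with values in `[0, 1]` the deviation of a sum over the primes is at most the square root of
the sum of the means, for almost all members (`Pool.Agent.T3h87.LT.All`); the function `(𝔅_p - ρ p) / √p` is as large as `√p`, but
has a bounded second moment over all residues (`Pool.Agent.T3h87.RP.Loc`), and it is a sum of dyadic layers, for which the product
of the size and of the square root of the mean is bounded (`Pool.Agent.T3h87.LT.Real`).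
-/

set_option autoImplicit false

namespace Pool.Agent.Results.MP_6090f9_nt.SparseProducts

open Finset Polynomial Filter
open Pool.Agent.T3h87.LT (Fam Kind)

section
variable {m D n r : ℕ}

/-- The polynomial `F + ∑ c_k h_k`, in the variable `x` over the ring of the polynomials in the variables `t_1, ..., t_m`. -/
noncomputable def member (F : (MvPolynomial (Fin m) ℤ)[X]) (h : Fin D → (MvPolynomial (Fin m) ℤ)[X]) (c : Fin D → ℤ) :
    (MvPolynomial (Fin m) ℤ)[X] := F + ∑ i, C (MvPolynomial.C (c i)) * h i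

/-- The polynomial `F(t, x)` in `x` for a point `t` over `ℤ / p`. -/
noncomputable def fibre (p : ℕ) (F : (MvPolynomial (Fin m) ℤ)[X]) (t : Fin m → ZMod p) : (ZMod p)[X] :=
  F.map (MvPolynomial.eval₂Hom (Int.castRingHom (ZMod p)) t)

/-- The trace of the Frobenius on `H¹` of the projective curve `y² = F(t, x)`, if it is smooth: `p + 1` minus the number of its
points; there is one point at infinity. -/
noncomputable def traceOne (p : ℕ) (F : (MvPolynomial (Fin m) ℤ)[X]) (t : Fin m → ZMod p) : ℝ :=
  p - Nat.card {P : ZMod p × ZMod p // P.2 ^ 2 = (fibre p F t).eval P.1}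

/-- The trace of the Frobenius on `H²` of the product of the `n` curves `y² = F_i(t, x)`, if they are smooth. -/
noncomputable def traceTwo (p : ℕ) (F : Fin n → (MvPolynomial (Fin m) ℤ)[X]) (t : Fin m → ZMod p) : ℝ :=
  n * p + ∑ q ∈ (univ : Finset (Fin n × Fin n)) with q.1 < q.2, traceOne p (F q.1) t * traceOne p (F q.2) t

/-- The average `𝔅_p` of the traces on `H²` of the fibres over all points `t` of the affine space over `ℤ / p`. -/
noncomputable def average (F : Fin n → (MvPolynomial (Fin m) ℤ)[X]) (p : ℕ) : ℝ :=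
  (∑ᶠ t : Fin m → ZMod p, traceTwo p F t) / (p : ℝ) ^ m

/-- The number `ρ`: the sum of `n` and of the number of the pairs `i < j` with `e i = e j`. -/
def rho (e : Fin n → Fin r) : ℕ := n + ((univ : Finset (Fin n × Fin n)).filter fun q => q.1 < q.2 ∧ e q.1 = e q.2).card

open Classical in
/-- The sum `∑ w(p) (𝔅_p - ρ p) log p` over the primes `p ≤ x` which are not in `R`. -/
noncomputable def partialSum (F : Fin n → (MvPolynomial (Fin m) ℤ)[X]) (ρ : ℝ) (w : ℕ → ℝ) (x : ℕ) (R : Set ℕ) : ℝ :=
  ∑ p ∈ (range (x + 1)).filter (fun p => p.Prime ∧ p ∉ R), w p * ((average F p - ρ * p) * Real.log p)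

/-- The value of `∑ c_k h_k` at the point `(t, x)` over `ℤ / p`. -/
noncomputable def combination (p : ℕ) (h : Fin D → (MvPolynomial (Fin m) ℤ)[X]) (c : Fin D → ZMod p) (t : Fin m → ZMod p)
    (x : ZMod p) : ZMod p := ∑ k, c k * (fibre p (h k) t).eval x

/-- For two points `x`, `y` on the fibre over `t` and `x'`, `y'` on the fibre over `t' ≠ t` (with `x ≠ y` and `x' ≠ y'` if `same`
holds), such that not all the `h_k` are zero at `(t, x)`, there is a combination of the `h_k` which is nonzero at `(t, x)` and zero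
at `(t', x')`, such that the same combination of the `h'_k` is zero at `(t, y)` and `(t', y')`. -/
def Separated (p : ℕ) (same : Prop) (h h' : Fin D → (MvPolynomial (Fin m) ℤ)[X]) : Prop :=
  ∀ t t' : Fin m → ZMod p, t ≠ t' → ∀ x y x' y' : ZMod p, (same → x ≠ y ∧ x' ≠ y') →
    (∃ k, (fibre p (h k) t).eval x ≠ 0) → ∃ c : Fin D → ZMod p,
      combination p h c t x ≠ 0 ∧ combination p h' c t y = 0 ∧ combination p h c t' x' = 0 ∧ combination p h' c t' y' = 0

/-- Every fibre has at most `b` points over `ℤ / p` at which all the `h_k` are zero. -/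
def FewBasePoints (p : ℕ) (b : ℕ) (h : Fin D → (MvPolynomial (Fin m) ℤ)[X]) : Prop :=
  ∀ t : Fin m → ZMod p, Nat.card {x : ZMod p // ∀ k, (fibre p (h k) t).eval x = 0} ≤ b

/-- The polynomials of the `n` factors of the product with the coefficients `c`. -/
noncomputable def factors (F : Fin r → (MvPolynomial (Fin m) ℤ)[X]) (h : Fin r → Fin D → (MvPolynomial (Fin m) ℤ)[X])
    (e : Fin n → Fin r) (c : Fin D → ℤ) (i : Fin n) : (MvPolynomial (Fin m) ℤ)[X] := member (F (e i)) (h (e i)) c

/-- For all weights `w j` with `(j + 1) ^ K ≤ x` and all sets `R` of primes which divide `Z(c)`: the sum of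
`w(p) (𝔅_p - ρ p) log p` over the primes `p ≤ x` outside `R` is at most `x ^ (1 + δ)` in absolute value. -/
def Good (F : Fin r → (MvPolynomial (Fin m) ℤ)[X]) (h : Fin r → Fin D → (MvPolynomial (Fin m) ℤ)[X]) (e : Fin n → Fin r)
    (Z : MvPolynomial (Fin D) ℤ) (δ : ℝ) (K : ℕ) (w : ℕ → ℕ → ℝ) (x : ℕ) (c : Fin D → ℤ) : Prop :=
  ∀ j : ℕ, (j + 1) ^ K ≤ x → ∀ R : Set ℕ, (∀ p ∈ R, (p : ℤ) ∣ MvPolynomial.eval c Z) →
    |partialSum (factors F h e c) (rho e) (w j) x R| ≤ (x : ℝ) ^ (1 + δ)

open Classical in
/-- Let `𝓕₁, ..., 𝓕_D` be kinds of sparse families (`Kind`) and `0 < δ ≤ 1`. There are `W`, `a`, `K` and `η > 0` such that for all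
`κ₁, ..., κ_D ≠ 0` and all sufficiently large `X` the following holds for all members `f l` of `𝓕 l (κ l)` and all sequences of
weights `w j` with values in `[-1, 1]`. Let `c₁, ..., c_D` be independent random integers, `c_l` with the distribution of `f l`.
Up to a probability of at most `X ^ (-η) ∑ (1 + |log Z_l|) ^ a`, where `Z_l` is the size of `f l`, the member of the system with the
coefficients `c` is `Good` for ALL `x ≥ X` with `x ^ W ≤ Z_l` for all `l`. -/
def Holds (F : Fin r → (MvPolynomial (Fin m) ℤ)[X]) (h : Fin r → Fin D → (MvPolynomial (Fin m) ℤ)[X]) (e : Fin n → Fin r)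
    (Z : MvPolynomial (Fin D) ℤ) : Prop :=
  ∀ 𝓕 : Fin D → ℤ → Set Fam, (∀ l, Kind (𝓕 l)) → ∀ δ : ℝ, 0 < δ → δ ≤ 1 →
    ∃ (W a K : ℕ) (η : ℝ), 1 ≤ W ∧ 1 ≤ K ∧ 0 < η ∧ ∀ κ : Fin D → ℤ, (∀ l, κ l ≠ 0) → ∃ X₀ : ℕ, ∀ X : ℕ, X₀ ≤ X →
    ∀ f : Fin D → Fam, (∀ l, f l ∈ 𝓕 l (κ l)) → ∀ w : ℕ → ℕ → ℝ, (∀ j p, |w j p| ≤ 1) →
      ∑ i ∈ (Fintype.piFinset fun l => (f l).set).filter (fun i => ¬ ∀ x : ℕ, X ≤ x → (∀ l, (x : ℝ) ^ W ≤ (f l).size) →
        Good F h e Z δ K w x (fun l => (f l).val (i l))), ∏ l, (f l).wt (i l) ≤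
      (∑ l, (1 + |Real.log (f l).size|) ^ a) * (X : ℝ) ^ (-η)

lemma average_eq (F : Fin n → (MvPolynomial (Fin m) ℤ)[X]) (p : ℕ) :
    average F p = Pool.Agent.T3h87.RP.BBn (Pool.Agent.T3h87.RP.rh p) F := by
  unfold average Pool.Agent.T3h87.RP.BBn traceTwo traceOne
  have hq : (Nat.card (ZMod p) : ℝ) = p := by rw [Nat.card_zmod]
  unfold Pool.Agent.T3h87.RP.t1
  rw [hq]
  rfl

lemma rho_eq (e : Fin n → Fin r) : (rho e : ℝ) = (n : ℝ) + ((Pool.Agent.T3h87.RP.pairs n).filter fun p => e p.1 = e p.2).card := by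
  unfold rho Pool.Agent.T3h87.RP.pairs
  rw [filter_filter]
  push_cast
  rfl

open Classical in
lemma partialSum_eq (F : Fin n → (MvPolynomial (Fin m) ℤ)[X]) (ρ : ℝ) (w : ℕ → ℝ) (x : ℕ) (R : Set ℕ) :
    partialSum F ρ w x R = ∑ p ∈ (Pool.Agent.R459.Eq.pri x).filter (fun p => p ∉ R), w p *
      ((Pool.Agent.T3h87.RP.BBn (Pool.Agent.T3h87.RP.rh p) F - ρ * p) * Real.log p) := by
  have h1 : (range (x + 1)).filter (fun p => p.Prime ∧ p ∉ R) = (Pool.Agent.R459.Eq.pri x).filter (fun p => p ∉ R) := by
    ext p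
    simp only [mem_filter, mem_range, Pool.Agent.R459.Eq.mem_pri]
    constructor
    · rintro ⟨h1, h2, h3⟩
      exact ⟨⟨by omega, h2⟩, h3⟩
    · rintro ⟨⟨h1, h2⟩, h3⟩
      exact ⟨by omega, h2, h3⟩
  unfold partialSum
  rw [h1]
  exact sum_congr rfl fun p _ => by rw [average_eq]

theorem holds_main (hm : 1 ≤ m) (F : Fin r → (MvPolynomial (Fin m) ℤ)[X]) (h : Fin r → Fin D → (MvPolynomial (Fin m) ℤ)[X])
    (e : Fin n → Fin r) (hF : ∀ j, (F j).Monic) (ho : ∀ j, Odd (F j).natDegree) (hh : ∀ j k, (h j k).natDegree < (F j).natDegree)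
    (b : ℕ) (S : Set ℕ) (hS : S.Finite) (hs : ∀ p : ℕ, p.Prime → p ∉ S → ∀ i j, Separated p (i = j) (h i) (h j))
    (hb : ∀ p : ℕ, p.Prime → p ∉ S → ∀ j, FewBasePoints p b (h j)) (Z : MvPolynomial (Fin D) ℤ) (hZ : Z ≠ 0) : Holds F h e Z := by
  classical
  intro 𝓕 h𝓕 δ hδ hδ1
  obtain ⟨W, a, K, η, hW, hK, hη, H⟩ := Pool.Agent.T3h87.RP.prodS hm F h e hF ho hh b S hS hs hb 𝓕 h𝓕 Z hZ δ hδ hδ1
  refine ⟨W, a, K, η, hW, hK, hη, fun κ hκ => ?_⟩
  obtain ⟨X₀, _, J⟩ := H κ hκ
  refine ⟨X₀, fun X hX f hf w hw => ?_⟩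
  refine J X hX f hf w hw _ (filter_subset _ _) fun i hi => ?_
  have h1 := (mem_filter.1 hi).2
  unfold Good at h1
  push Not at h1
  obtain ⟨x, q1, q2, j, q3, R, q4, q5⟩ := h1
  refine ⟨x, q1, q2, j, q3, R, q4, ?_⟩
  rw [partialSum_eq, rho_eq] at q5
  exact q5

end

section explicit
variable {r : ℕ}

/-- The exponents `(j, a, α)` with `j ≤ r`, `a < d_j` and `α_l ≤ b` for `1 ≤ l ≤ m`. -/
abbrev Exponents (d : Fin r → ℕ) (b m : ℕ) : Type := Σ j : Fin r, Fin (d j) × (Fin m → Fin (b + 1))

/-- The polynomial `x ^ a t ^ α` for the parameter number `(j, a, α)` and the curve number `i = j`, and `0` for the other curves. -/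
noncomputable def monomialOf {d : Fin r → ℕ} {b m : ℕ} (i : Fin r) (k : Exponents d b m) : (MvPolynomial (Fin m) ℤ)[X] :=
  if k.1 = i then X ^ (k.2.1 : ℕ) * C (∏ l, MvPolynomial.X l ^ (k.2.2 l : ℕ)) else 0

end explicit

/-- **Part 1.** Let `m ≥ 1`, `F_1, ..., F_r` polynomials in `x` and `t = (t_1, ..., t_m)` over `ℤ` which are monic of odd degree in
`x`, and `h_(j,k)`, `j ≤ r`, `k ≤ D`, polynomials of degree less than that of `F_j` in `x`.  Suppose that for all but finitely many
primes `p` the `h_(i,k)` and `h_(j,k)` are `Separated`, for all `i` and `j`, and that on every fibre the `h_(j,k)` have at most `b`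
common zeros over `ℤ / p`.  Let `e : {1, ..., n} → {1, ..., r}` be any map.  Then `Holds`, for every nonzero polynomial `Z`: for the
fibrations in the products of the `n` curves `y² = F_(e i)(t, x) + ∑ c_k h_(e i,k)(t, x)`, where `c_1, ..., c_D` are independent
random members of sparse families, the sums `∑ w(p) (𝔅_p - ρ p) log p`, `p ≤ x`, are at most `x ^ (1 + δ)` for all `x` between `X` and
a fixed power of the sizes, with a very small probability of an exception.

**Part 2.** This is the case for the products of the curves `C_1, ..., C_r : y² = x ^ d_j + G_j(t, x)`, each of them to an arbitrary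
power, where the `G_j` are independent polynomials with all the monomials `x ^ a t ^ α` with `a < d_j` and `α_l ≤ b`, for odd
`d_j ≥ 3` and `b ≥ 1` (`E` is an enumeration of the parameters, the coefficients of all the `G_j`). -/
theorem result :
    (∀ (m D n r b : ℕ), 1 ≤ m → ∀ (F : Fin r → (MvPolynomial (Fin m) ℤ)[X]) (h : Fin r → Fin D → (MvPolynomial (Fin m) ℤ)[X]),
      (∀ j, (F j).Monic) → (∀ j, Odd (F j).natDegree) → (∀ j k, (h j k).natDegree < (F j).natDegree) → ∀ S : Set ℕ, S.Finite →
      (∀ p : ℕ, p.Prime → p ∉ S → ∀ i j, Separated p (i = j) (h i) (h j)) →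
      (∀ p : ℕ, p.Prime → p ∉ S → ∀ j, FewBasePoints p b (h j)) →
      ∀ (e : Fin n → Fin r) (Z : MvPolynomial (Fin D) ℤ), Z ≠ 0 → Holds F h e Z) ∧
    (∀ (m D n r b : ℕ) (d : Fin r → ℕ), 1 ≤ m → 1 ≤ b → (∀ j, Odd (d j) ∧ 3 ≤ d j) → ∀ E : Fin D ≃ Exponents d b m,
      ∀ (e : Fin n → Fin r) (Z : MvPolynomial (Fin D) ℤ), Z ≠ 0 → Holds (fun j => X ^ d j) (fun j k => monomialOf j (E k)) e Z) := by
  refine ⟨fun m D n r b hm F h hF ho hh S hS hs hb e Z hZ => holds_main hm F h e hF ho hh b S hS hs hb Z hZ,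
    fun m D n r b d hm hb hd E e Z hZ => ?_⟩
  refine holds_main hm _ _ e (fun j => monic_X_pow _) (fun j => ?_) (fun j k => ?_) 0 ∅ Set.finite_empty (fun p hp _ i j => ?_)
    (fun p hp _ j => ?_) Z hZ
  · rw [natDegree_X_pow]
    exact (hd j).1
  · rw [natDegree_X_pow]
    exact Pool.Agent.T3h87.RP.hp_deg d b m ℤ j (by have := (hd j).2; omega) (E k)
  · exact Pool.Agent.T3h87.RP.sepP_p E (fun j => by have := (hd j).2; omega) hb p hp i j
  · exact Pool.Agent.T3h87.RP.fewP_p E (fun j => by have := (hd j).2; omega) p hp j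

end Pool.Agent.Results.MP_6090f9_nt.SparseProducts
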