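import Pool.Agent.T3h87.RP.Su2

/-!
# The residue formula for Frobenius averages on `H²` for almost all members of sparse families of fibrations in surfaces

Let `F₀` and `h_1, ..., h_D` be polynomials in `t`, `u = (u_1, ..., u_m)`, `m ≥ 0`, and `x` over `ℤ`, `F₀` monic of odd degree `d` in
`x`, and the `h_i` of smaller degree in `x`.  We study the fibrations over the affine space with the coordinates `u` (a point, if
`m = 0`) whose fibres are the surfaces `y² = F_c(t, u, x)`, `F_c = F₀ + ∑ c_i h_i`; they are fibred over the projective line with the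
coordinate `t`.  If the degree in `t` of the coefficient of `x ^ j` is at most `2 n (d - j)`, these surfaces are projective: near
`t = ∞` one puts `t = 1 / t'`, `x = x' / t' ^ (2 n)`, `y = y' / t' ^ (n d)`, and on every fibre of the surface over the line there is
one more point, a section.  If they are smooth, then `H¹ = H³ = 0`, and the trace of the Frobenius on `H²` of the surface over a
point `u` over `𝔽_p` is the number of its points minus `1 + p²`.  The average of these traces over all `u` is the number `𝔅_p` of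
the problem.  For `d = 3` these are elliptic surfaces (rational for `n = 1`, K3 for `n = 2`).

According to the problem the series `∑ 𝔅_p log(p) p ^ (-z)` has the residue `rank NS(X/ℚ(u)) = 2 + rank J(ℚ(u, t))` at `z = 2`
(Shioda and Tate; `J` is the Jacobian of the generic fibre over the line), in particular for `m = 0` (the conjecture of Tate for
surfaces).  If the base locus of the `h_i` consists of `r` sections over which `F₀` is a square, then the members have `r` explicit
points over `ℚ(u, t)`.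

The coefficients `c_1, ..., c_D` are independent random members of sparse families of integers, of the six kinds `Kind` (in the file
`Pool.Agent.T3h87.LT.Kinds`): automatic sets (for example missing digits); random integers whose blocks of digits can be exchanged;
rearrangements of given digits; palindromes; residues with small Fourier coefficients; integer parts of functions of non-integral
order.  `Fam` is a random integer, given by finitely many values with weights, with a size.  We show that with very few exceptions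
the sums `∑ w(p) (𝔅_p - (2 + r) p) log p` over the primes `p ≤ x` are at most `x ^ (3 / 2 + δ)`, with all the weights of an arbitrary
sequence of weights (their number may be as large as a small power of `x`; for example all Dirichlet characters of small moduli, or
`p ^ (i τ)`) and without an arbitrary set of bad primes: as if the series and its twists differed from those of `(2 + r) p` by a
function which is holomorphic and of subpolynomial growth for `Re z > 3 / 2`.

Method: the numbers of the points of the surfaces and of their fibres at infinity (`Pool.Agent.N647.NG.SurfA`); for the fibration over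
the space with the coordinates `(t, u)` in curves: the average of the traces on `H¹` is as large as `√p`, but has a bounded second
moment over all residues (`Pool.Agent.N647.NG.Fib`), and it is a sum of dyadic layers, for which the product of the size and of the
square root of the mean is bounded (`Pool.Agent.T3h87.LT.Real`, `Pool.Agent.T3h87.LT.Sps2`); the factor `p` is absorbed in the weights.
-/

set_option autoImplicit false

namespace Pool.Agent.Results.MP_6090f9_nt.SparseSurfaces

open Finset Polynomial Filter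
open Pool.Agent.T3h87.LT (Fam Kind)

section
variable {k : Type} [CommRing k]

/-- The polynomial of the fibre at `t = ∞` of the surface `y² = P(t, x)`: the coefficient of `X ^ j` is the coefficient of
`t ^ (2 n (d - j)) x ^ j` in `P`, where `d` is the degree of `P` in `x`. -/
noncomputable def atInfinity (n : ℕ) (P : k[X][X]) : k[X] :=
  ∑ j ∈ range (P.natDegree + 1), C ((P.coeff j).coeff (2 * n * (P.natDegree - j))) * X ^ j

/-- The number of the points of the surface `y² = P(t, x)`: the points with `t ≠ ∞`, `x ≠ ∞`, the points with `t = ∞`, `x ≠ ∞`, and the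
`q + 1` points of the section at `x = ∞`. -/
noncomputable def points (n : ℕ) (P : k[X][X]) : ℕ :=
  Nat.card {Q : k × k × k // Q.2.2 ^ 2 = (P.map (evalRingHom Q.1)).eval Q.2.1} +
    Nat.card {Q : k × k // Q.2 ^ 2 = (atInfinity n P).eval Q.1} + (Nat.card k + 1)

/-- The trace of the Frobenius on `H²` of this surface, if it is smooth: the number of its points minus `1 + q²`. -/
noncomputable def traceTwo (n : ℕ) (P : k[X][X]) : ℝ := (points n P : ℝ) - 1 - (Nat.card k : ℝ) ^ 2

end

section
variable {m D : ℕ}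

/-- The polynomial `F_c = F₀ + ∑ c_i h_i`, in the variable `x` over the ring of the polynomials in the `m + 1` variables `t` (the
variable number `0`) and `u_1, ..., u_m` (the variables `1, ..., m`). -/
noncomputable def member (F₀ : (MvPolynomial (Fin (m + 1)) ℤ)[X]) (h : Fin D → (MvPolynomial (Fin (m + 1)) ℤ)[X])
    (c : Fin D → ℤ) : (MvPolynomial (Fin (m + 1)) ℤ)[X] := F₀ + ∑ i, C (MvPolynomial.C (c i)) * h i

/-- The value `F(t, u, x)` at the point `P = ((t, u), x)` over `ℤ / p`. -/
noncomputable def val (p : ℕ) (F : (MvPolynomial (Fin (m + 1)) ℤ)[X]) (P : (Fin (m + 1) → ZMod p) × ZMod p) : ZMod p :=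
  (F.map (MvPolynomial.eval₂Hom (Int.castRingHom (ZMod p)) P.1)).eval P.2

/-- The polynomial `F(t, u, x)` in `t` and `x` over `ℤ / p`, for a point `u` over `ℤ / p`: the surface over the point `u` is
`y² = F(t, u, x)`. -/
noncomputable def surface (p : ℕ) (F : (MvPolynomial (Fin (m + 1)) ℤ)[X]) (u : Fin m → ZMod p) : (ZMod p)[X][X] :=
  F.map (MvPolynomial.eval₂Hom ((C : ZMod p →+* (ZMod p)[X]).comp (Int.castRingHom (ZMod p))) (Fin.cons X fun i => C (u i)))

/-- The average `𝔅_p` of the traces on `H²` of the surfaces over all points `u` of the affine space over `ℤ / p`. -/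
noncomputable def average (n : ℕ) (F : (MvPolynomial (Fin (m + 1)) ℤ)[X]) (p : ℕ) : ℝ :=
  (∑ᶠ u : Fin m → ZMod p, traceTwo n (surface p F u)) / (p : ℝ) ^ m

open Classical in
/-- The sum `∑ w(p) (𝔅_p - (2 + r) p) log p` over the primes `p ≤ x` which are not in `R`. -/
noncomputable def partialSum (n : ℕ) (F : (MvPolynomial (Fin (m + 1)) ℤ)[X]) (r : ℝ) (w : ℕ → ℝ) (x : ℕ) (R : Set ℕ) : ℝ :=
  ∑ p ∈ (range (x + 1)).filter (fun p => p.Prime ∧ p ∉ R), w p * ((average n F p - (2 + r) * p) * Real.log p)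

/-- The values `h_i(P)` at a point `P` over `ℤ / p` outside the base locus are not a multiple of the values `h_i(Q)` at another
point `Q`. -/
def Separated (p : ℕ) (h : Fin D → (MvPolynomial (Fin (m + 1)) ℤ)[X]) : Prop :=
  ∀ P Q : (Fin (m + 1) → ZMod p) × ZMod p, P ≠ Q → (∃ i, val p (h i) P ≠ 0) → ¬ ∃ l : ZMod p, ∀ i, val p (h i) P = l * val p (h i) Q

/-- The number of the points `P` over `ℤ / p` in the base locus (the common zeros of the `h_i`). -/
noncomputable def basePoints (p : ℕ) (h : Fin D → (MvPolynomial (Fin (m + 1)) ℤ)[X]) : ℝ :=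
  Nat.card {P : (Fin (m + 1) → ZMod p) × ZMod p // ∀ i, val p (h i) P = 0}

/-- The number of the points `(P, y)` over `ℤ / p` with `P` in the base locus and `y² = F₀(P)`. -/
noncomputable def coverPoints (p : ℕ) (F₀ : (MvPolynomial (Fin (m + 1)) ℤ)[X]) (h : Fin D → (MvPolynomial (Fin (m + 1)) ℤ)[X]) : ℝ :=
  Nat.card {P : ((Fin (m + 1) → ZMod p) × ZMod p) × ZMod p // (∀ i, val p (h i) P.1 = 0) ∧ P.2 ^ 2 = val p F₀ P.1}

/-- For all weights `w j` with `(j + 1) ^ K ≤ x` and all sets `R` of primes which divide `Z(c)`: the sum of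
`w(p) (𝔅_p - (2 + r) p) log p` over the primes `p ≤ x` outside `R` is at most `x ^ (3 / 2 + δ)` in absolute value. -/
def Good (n : ℕ) (F₀ : (MvPolynomial (Fin (m + 1)) ℤ)[X]) (h : Fin D → (MvPolynomial (Fin (m + 1)) ℤ)[X]) (r : ℝ)
    (Z : MvPolynomial (Fin D) ℤ) (δ : ℝ) (K : ℕ) (w : ℕ → ℕ → ℝ) (x : ℕ) (c : Fin D → ℤ) : Prop :=
  ∀ j : ℕ, (j + 1) ^ K ≤ x → ∀ R : Set ℕ, (∀ p ∈ R, (p : ℤ) ∣ MvPolynomial.eval c Z) →
    |partialSum n (member F₀ h c) r (w j) x R| ≤ (x : ℝ) ^ (3 / 2 + δ)

open Classical in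
/-- Let `𝓕₁, ..., 𝓕_D` be kinds of sparse families (`Kind`) and `0 < δ ≤ 1`. There are `W`, `a`, `K` and `η > 0` such that for all
`κ₁, ..., κ_D ≠ 0` and all sufficiently large `X` the following holds for all members `f l` of `𝓕 l (κ l)` and all sequences of
weights `w j` with values in `[-1, 1]`. Let `c₁, ..., c_D` be independent random integers, `c_l` with the distribution of `f l`.
Up to a probability of at most `X ^ (-η) ∑ (1 + |log Z_l|) ^ a`, where `Z_l` is the size of `f l`, the member of the system with the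
coefficients `c` is `Good` for ALL `x ≥ X` with `x ^ W ≤ Z_l` for all `l`. -/
def Holds (n : ℕ) (F₀ : (MvPolynomial (Fin (m + 1)) ℤ)[X]) (h : Fin D → (MvPolynomial (Fin (m + 1)) ℤ)[X]) (r : ℝ)
    (Z : MvPolynomial (Fin D) ℤ) : Prop :=
  ∀ 𝓕 : Fin D → ℤ → Set Fam, (∀ l, Kind (𝓕 l)) → ∀ δ : ℝ, 0 < δ → δ ≤ 1 →
    ∃ (W a K : ℕ) (η : ℝ), 1 ≤ W ∧ 1 ≤ K ∧ 0 < η ∧ ∀ κ : Fin D → ℤ, (∀ l, κ l ≠ 0) → ∃ X₀ : ℕ, ∀ X : ℕ, X₀ ≤ X →
    ∀ f : Fin D → Fam, (∀ l, f l ∈ 𝓕 l (κ l)) → ∀ w : ℕ → ℕ → ℝ, (∀ j p, |w j p| ≤ 1) →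
      ∑ i ∈ (Fintype.piFinset fun l => (f l).set).filter (fun i => ¬ ∀ x : ℕ, X ≤ x → (∀ l, (x : ℝ) ^ W ≤ (f l).size) →
        Good n F₀ h r Z δ K w x (fun l => (f l).val (i l))), ∏ l, (f l).wt (i l) ≤
      (∑ l, (1 + |Real.log (f l).size|) ^ a) * (X : ℝ) ^ (-η)

lemma average_eq (n : ℕ) (F : (MvPolynomial (Fin (m + 1)) ℤ)[X]) (p : ℕ) :
    average n F p = Pool.Agent.N647.NG.BB n (Pool.Agent.T3h87.RP.rh p) F := by
  have hq : (Nat.card (ZMod p) : ℝ) = p := by rw [Nat.card_zmod]
  unfold average Pool.Agent.N647.NG.BB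
  rw [hq]
  rfl

open Classical in
lemma partialSum_eq (n : ℕ) (F : (MvPolynomial (Fin (m + 1)) ℤ)[X]) (r : ℝ) (w : ℕ → ℝ) (x : ℕ) (R : Set ℕ) :
    partialSum n F r w x R = ∑ p ∈ (Pool.Agent.R459.Eq.pri x).filter (fun p => p ∉ R), w p *
      ((Pool.Agent.N647.NG.BB n (Pool.Agent.T3h87.RP.rh p) F - (2 + r) * p) * Real.log p) := by
  have h1 : (range (x + 1)).filter (fun p => p.Prime ∧ p ∉ R) = (Pool.Agent.R459.Eq.pri x).filter (fun p => p ∉ R) := by
    ext p
    simp only [mem_filter, mem_range, Pool.Agent.R459.Eq.mem_pri]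
    constructor
    · rintro ⟨h1, h2, h3⟩
      exact ⟨⟨by omega, h2⟩, h3⟩
    · rintro ⟨⟨h1, h2⟩, h3⟩
      exact ⟨by omega, h2, h3⟩
  unfold partialSum
  rw [h1]
  exact sum_congr rfl fun p _ => by rw [average_eq]

theorem holds_main (n : ℕ) (F₀ : (MvPolynomial (Fin (m + 1)) ℤ)[X]) (h : Fin D → (MvPolynomial (Fin (m + 1)) ℤ)[X])
    (hF : F₀.Monic) (ho : Odd F₀.natDegree) (hh : ∀ i, (h i).natDegree < F₀.natDegree) (r C₀ : ℝ)
    (S : Set ℕ) (hS : S.Finite) (hs : ∀ p : ℕ, p.Prime → p ∉ S → Separated p h)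
    (hb : ∀ p : ℕ, p.Prime → p ∉ S →
      |coverPoints p F₀ h - basePoints p h - r * (p : ℝ) ^ (m + 1)| ≤ C₀ * ((p : ℝ) ^ (m + 1) / √p))
    (Z : MvPolynomial (Fin D) ℤ) (hZ : Z ≠ 0) : Holds n F₀ h r Z := by
  classical
  intro 𝓕 h𝓕 δ hδ hδ1
  obtain ⟨g, hg⟩ := ho
  obtain ⟨W, a, K, η, hW, hK, hη, H⟩ := Pool.Agent.T3h87.RP.surfS n F₀ h hF hg (fun i => by rw [← hg]; exact hh i) r C₀ S hS hs hb
    𝓕 h𝓕 Z hZ δ hδ hδ1
  refine ⟨W, a, K, η, hW, hK, hη, fun κ hκ => ?_⟩
  obtain ⟨X₀, _, J⟩ := H κ hκ
  refine ⟨X₀, fun X hX f hf w hw => ?_⟩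
  refine J X hX f hf w hw _ (filter_subset _ _) fun i hi => ?_
  have h1 := (mem_filter.1 hi).2
  unfold Good at h1
  push Not at h1
  obtain ⟨x, q1, q2, j, q3, R, q4, q5⟩ := h1
  refine ⟨x, q1, q2, j, q3, R, q4, ?_⟩
  rw [partialSum_eq] at q5
  exact q5

end

section explicit
variable (d r n e m : ℕ)

/-- `(x - 1) ⋯ (x - r)`. -/
noncomputable def linearFactors : (MvPolynomial (Fin (m + 1)) ℤ)[X] :=
  ∏ j ∈ range r, (X - C (((j + 1 : ℕ) : MvPolynomial (Fin (m + 1)) ℤ)))

/-- `(x - 1) ⋯ (x - r) x ^ (d - r) + t ^ (2 n d)`. -/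
noncomputable def fixedPart : (MvPolynomial (Fin (m + 1)) ℤ)[X] :=
  linearFactors r m * X ^ (d - r) + C (MvPolynomial.X 0 ^ (2 * (n * d)))

/-- The exponents `(a, β, α)` with `a < d - r`, `β ≤ 2 n (d - r - a)` and `α_k ≤ e`, `1 ≤ k ≤ m`. -/
abbrev Exponents : Type := (Σ a : Fin (d - r), Fin (2 * n * (d - r - a) + 1)) × (Fin m → Fin (e + 1))

/-- `(x - 1) ⋯ (x - r) x ^ a t ^ β u ^ α` for `i = (a, β, α)`. -/
noncomputable def variablePart (i : Exponents d r n e m) : (MvPolynomial (Fin (m + 1)) ℤ)[X] :=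
  linearFactors r m * (X ^ (i.1.1 : ℕ) * C (MvPolynomial.X 0 ^ (i.1.2 : ℕ) * ∏ k, MvPolynomial.X (Fin.succ k) ^ (i.2 k : ℕ)))

end explicit

/-- **Part 1.** Let `m ≥ 0`, `F₀` a polynomial in `x`, `t` and `u = (u_1, ..., u_m)` over `ℤ` which is monic of odd degree in `x`, and
`h_1, ..., h_D` polynomials of smaller degree in `x`.  Suppose that for all but finitely many primes `p` the `h_i` separate the points
outside the base locus over `ℤ / p`, and that the sum of the quadratic character of `F₀` over the base locus is `r p ^ (m + 1)` up to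
`O(p ^ (m + 1 / 2))` (for example if the base locus consists of `r` sections over which `F₀` is a square).  Then `Holds`, for every
nonzero polynomial `Z` and every `n` (which enters in the fibre at `t = ∞`; the case of projective surfaces is that in which the
coefficients of `x ^ j` have degree at most `2 n (d - j)` in `t`): for the fibrations in the surfaces
`y² = F₀(t, u, x) + ∑ c_i h_i(t, u, x)`, where `c_1, ..., c_D` are independent random members of sparse families, the sums
`∑ w(p) (𝔅_p - (2 + r) p) log p`, `p ≤ x`, are at most `x ^ (3 / 2 + δ)` for all `x` between `X` and a fixed power of the sizes, with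
a very small probability of an exception.

**Part 2.** This is the case for the families `y² = (x - 1) ⋯ (x - r) (x ^ (d - r) + G_c(t, u, x)) + t ^ (2 n d)`, where `G_c` is the
polynomial with all the monomials `x ^ a t ^ β u ^ α` with `a < d - r`, `β ≤ 2 n (d - r - a)` and `α_k ≤ e`, for odd `d ≥ r + 2`,
`n ≥ 1` and `e ≥ 1`, which have the sections `(j, t ^ (n d))`, `1 ≤ j ≤ r` (`E` is an enumeration of the monomials). -/
theorem result :
    (∀ (n m D : ℕ) (F₀ : (MvPolynomial (Fin (m + 1)) ℤ)[X]) (h : Fin D → (MvPolynomial (Fin (m + 1)) ℤ)[X]),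
      F₀.Monic → Odd F₀.natDegree → (∀ i, (h i).natDegree < F₀.natDegree) → ∀ (r C₀ : ℝ) (S : Set ℕ), S.Finite →
      (∀ p : ℕ, p.Prime → p ∉ S → Separated p h) →
      (∀ p : ℕ, p.Prime → p ∉ S →
        |coverPoints p F₀ h - basePoints p h - r * (p : ℝ) ^ (m + 1)| ≤ C₀ * ((p : ℝ) ^ (m + 1) / √p)) →
      ∀ Z : MvPolynomial (Fin D) ℤ, Z ≠ 0 → Holds n F₀ h r Z) ∧
    (∀ d r n e m D : ℕ, r + 2 ≤ d → Odd d → 1 ≤ n → 1 ≤ e → ∀ E : Fin D ≃ Exponents d r n e m,
      ∀ Z : MvPolynomial (Fin D) ℤ, Z ≠ 0 → Holds n (fixedPart d r n m) (fun i => variablePart d r n e m (E i)) r Z) := by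
  refine ⟨fun n m D F₀ h hF ho hh r C₀ S hS hs hb Z hZ => holds_main n F₀ h hF ho hh r C₀ S hS hs hb Z hZ,
    fun d r n e m D hd ho hn he E Z hZ => ?_⟩
  obtain ⟨h2, h3⟩ := Pool.Agent.N647.NG.Fs_deg ℤ d r n m (by omega)
  refine holds_main n _ _ h2 ?_ (fun i => ?_) r r {p | p ≤ r + 2} (Set.finite_le_nat _) (fun p hp _ => ?_) (fun p hp hv => ?_) Z hZ
  · rw [h3]
    exact ho
  · rw [h3]
    exact Pool.Agent.N647.NG.hs_deg ℤ d r n e m (by omega) (E i)
  · exact Pool.Agent.T3h87.RP.sepQ_s d r n e m D E hd hn he p hp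
  · have hv' : ¬ p ≤ r + 2 := hv
    exact Pool.Agent.T3h87.RP.baseQ_s d r n e m D E hd hn p hp (by omega) (by omega)

end Pool.Agent.Results.MP_6090f9_nt.SparseSurfaces
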