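import Pool.Agent.T3h87.RP.Expl

/-!
# The residue formula for Frobenius averages on `H²` for almost all members of thin sequences of fibrations in products of curves

Let `K` be a number field, `m ≥ 1`, `F_1, ..., F_r` polynomials in `t = (t_1, ..., t_m)` and `x` over its ring of integers, monic of
odd degrees in `x`, and `h_(j,1), ..., h_(j,D)`, for `j ≤ r`, polynomials of smaller degree in `x`.  For `c = (c_1, ..., c_D)` let
`C_j` be the fibration in hyperelliptic curves `y² = F_j(t, x) + ∑ c_k h_(j,k)(t, x)` over the affine space with the coordinates `t`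
(some of the `h_(j,k)` may be zero: the curves may depend on different parameters).  For `e : {1, ..., n} → {1, ..., r}` we study the
fibration in the products `X = C_(e 1) × ... × C_(e n)`.  By the formula of Künneth `H²` of the fibre over the point `t` over the
residue field with `q_v` elements is the sum of `n` lines and of the tensor products `H¹ ⊗ H¹` of the pairs of factors; the trace of
the Frobenius is `n q_v + ∑ a_(e i)(t) a_(e j)(t)`, `i < j`, with the traces `a_j(t)` on `H¹` of the curves.  The average over all `t`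
is the number `𝔅_v` of the problem.

According to the problem the series `∑ 𝔅_v log(q_v) q_v ^ (-z)` has the residue `rank NS(X/K(t))` at `z = 2`, where
`rank NS(X/K(t)) = n + ∑ rank Hom(J_(e i), J_(e j))`, `i < j`; for a general member this is `ρ`, the sum of `n` and the number of the
pairs `i < j` with `e i = e j`.

The coefficients are `c_k = ∑ ⌊P_(k,j)(s)⌋ ω_j` where the `P_(k,j)` are generalised polynomials and `s` is an integer, or a prime: there
is one parameter `s` only.  We show that for very few exceptions `s` the sums `∑ w(v) (𝔅_v - ρ q_v) log(q_v)` over the prime ideals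
(of all degrees) with `q_v ≤ T` are at most `T ^ (1 + δ)`, and the Dirichlet polynomials `∑ w(v) (𝔅_v - ρ q_v) log(q_v) q_v ^ (-z)`
over the prime ideals with `T₁ < q_v ≤ T₂` are at most `T₁ ^ (1 + δ - Re z)` in the half plane `Re z ≥ 1 + δ` for `|Im z| ≤ T₁ ^ B`,
with arbitrary weights (for example characters) from a set of at most `y ^ B` weights, without an arbitrary set of bad primes, for
all `T`, `T₁`, `T₂` between `y` and `N ^ κ`: as if the series and all its twists differed from those of `ρ q_v` by a function which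
is holomorphic and of subpolynomial growth for `Re z > 1`.

Method: the products of two traces, minus `q_v` for the square of one trace, are sums of quadratic characters at pairs of different
points of a fibre (up to a bounded amount).  If the polynomials `h` separate two pairs of points on two different fibres, the second
moment of their sum over all `t` is `O(q_v ^ (m + 2))`, so that the quadratic mean of `𝔅_v - ρ q_v` over all coefficients is
`O(√q_v)`, while it may be as large as `q_v`.  By exponential sums the vectors of the integer parts are uniformly distributed modulo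
all moduli up to a power of `N`, over the integers and over the primes (`Pool.Agent.N666.TM.fl_well`); then one uses high moments of
sums of local functions which may be unbounded but have bounded second moments.
-/

set_option autoImplicit false

namespace Pool.Agent.Results.MP_6090f9_nt.ThinProducts

open Finset Polynomial NumberField IsDedekindDomain

section
variable {K : Type} [Field K] [NumberField K] {m D g n r : ℕ}

/-- The coefficients `c_k = ∑ n_(k,j) ω_j`. -/
def coeff (ω : Fin g → 𝓞 K) (k : Fin (D * g) → ℕ) (i : Fin D) : 𝓞 K := ∑ j, (k (finProdFinEquiv (i, j)) : 𝓞 K) * ω j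

/-- The polynomial `F + ∑ c_k h_k`, in the variable `x` over the ring of the polynomials in the variables `t_1, ..., t_m`. -/
noncomputable def member (F : (MvPolynomial (Fin m) (𝓞 K))[X]) (h : Fin D → (MvPolynomial (Fin m) (𝓞 K))[X])
    (c : Fin D → 𝓞 K) : (MvPolynomial (Fin m) (𝓞 K))[X] := F + ∑ i, C (MvPolynomial.C (c i)) * h i

/-- The residue field of the prime ideal `v`. -/
abbrev Residue (v : HeightOneSpectrum (𝓞 K)) : Type := 𝓞 K ⧸ v.asIdeal

/-- The absolute norm `q_v`. -/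
noncomputable def norm (v : HeightOneSpectrum (𝓞 K)) : ℝ := Ideal.absNorm v.asIdeal

/-- The polynomial `F(t, x)` in `x` for a point `t` over the residue field of `v`. -/
noncomputable def fibre (v : HeightOneSpectrum (𝓞 K)) (F : (MvPolynomial (Fin m) (𝓞 K))[X]) (t : Fin m → Residue v) :
    (Residue v)[X] := F.map (MvPolynomial.eval₂Hom (Ideal.Quotient.mk v.asIdeal) t)

/-- The trace of the Frobenius on `H¹` of the projective curve `y² = F(t, x)`, if it is smooth: `q_v + 1` minus the number of its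
points; there is one point at infinity. -/
noncomputable def traceOne (v : HeightOneSpectrum (𝓞 K)) (F : (MvPolynomial (Fin m) (𝓞 K))[X]) (t : Fin m → Residue v) : ℝ :=
  norm v - Nat.card {P : Residue v × Residue v // P.2 ^ 2 = (fibre v F t).eval P.1}

/-- The trace of the Frobenius on `H²` of the product of the `n` curves `y² = F_i(t, x)`, if they are smooth. -/
noncomputable def traceTwo (v : HeightOneSpectrum (𝓞 K)) (F : Fin n → (MvPolynomial (Fin m) (𝓞 K))[X]) (t : Fin m → Residue v) : ℝ :=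
  n * norm v + ∑ p ∈ (univ : Finset (Fin n × Fin n)) with p.1 < p.2, traceOne v (F p.1) t * traceOne v (F p.2) t

/-- The average `𝔅_v` of the traces on `H²` of the fibres over all points `t` of the affine space over the residue field. -/
noncomputable def average (F : Fin n → (MvPolynomial (Fin m) (𝓞 K))[X]) (v : HeightOneSpectrum (𝓞 K)) : ℝ :=
  (∑ᶠ t : Fin m → Residue v, traceTwo v F t) / norm v ^ m

/-- The number `ρ`: the sum of `n` and of the number of the pairs `i < j` with `e i = e j`. -/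
def rho (e : Fin n → Fin r) : ℕ := n + ((univ : Finset (Fin n × Fin n)).filter fun p => p.1 < p.2 ∧ e p.1 = e p.2).card

/-- The sum `∑ w(v) (𝔅_v - ρ q_v) log(q_v)` over the prime ideals `v ∉ R` with `q_v ≤ T`. -/
noncomputable def partialSum (F : Fin n → (MvPolynomial (Fin m) (𝓞 K))[X]) (ρ : ℝ) (w : HeightOneSpectrum (𝓞 K) → ℝ) (T : ℕ)
    (R : Set (HeightOneSpectrum (𝓞 K))) : ℝ :=
  ∑ᶠ v ∈ {v : HeightOneSpectrum (𝓞 K) | Ideal.absNorm v.asIdeal ≤ T ∧ v ∉ R},
    w v * ((average F v - ρ * norm v) * Real.log (norm v))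

/-- The Dirichlet polynomial `∑ w(v) (𝔅_v - ρ q_v) log(q_v) q_v ^ (-z)` over the prime ideals `v ∉ R` with `T₁ < q_v ≤ T₂`. -/
noncomputable def dirichlet (F : Fin n → (MvPolynomial (Fin m) (𝓞 K))[X]) (ρ : ℝ) (w : HeightOneSpectrum (𝓞 K) → ℝ) (T₁ T₂ : ℕ)
    (R : Set (HeightOneSpectrum (𝓞 K))) (z : ℂ) : ℂ :=
  ∑ᶠ v ∈ {v : HeightOneSpectrum (𝓞 K) | T₁ < Ideal.absNorm v.asIdeal ∧ Ideal.absNorm v.asIdeal ≤ T₂ ∧ v ∉ R},
    ((w v * ((average F v - ρ * norm v) * Real.log (norm v)) : ℝ) : ℂ) * (norm v : ℂ) ^ (-z)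

/-- The value of `∑ c_k h_k` at the point `(t, x)` over the residue field. -/
noncomputable def combination (v : HeightOneSpectrum (𝓞 K)) (h : Fin D → (MvPolynomial (Fin m) (𝓞 K))[X]) (c : Fin D → Residue v)
    (t : Fin m → Residue v) (x : Residue v) : Residue v := ∑ k, c k * (fibre v (h k) t).eval x

/-- For two points `x`, `y` on the fibre over `t` and `x'`, `y'` on the fibre over `t' ≠ t` (with `x ≠ y` and `x' ≠ y'` if `same`
holds), such that not all the `h_k` are zero at `(t, x)`, there is a combination of the `h_k` which is nonzero at `(t, x)` and zero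
at `(t', x')`, such that the same combination of the `h'_k` is zero at `(t, y)` and `(t', y')`. -/
def Separated (v : HeightOneSpectrum (𝓞 K)) (same : Prop) (h h' : Fin D → (MvPolynomial (Fin m) (𝓞 K))[X]) : Prop :=
  ∀ t t' : Fin m → Residue v, t ≠ t' → ∀ x y x' y' : Residue v, (same → x ≠ y ∧ x' ≠ y') →
    (∃ k, (fibre v (h k) t).eval x ≠ 0) → ∃ c : Fin D → Residue v,
      combination v h c t x ≠ 0 ∧ combination v h' c t y = 0 ∧ combination v h c t' x' = 0 ∧ combination v h' c t' y' = 0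

/-- Every fibre has at most `b` points over the residue field at which all the `h_k` are zero. -/
def FewBasePoints (v : HeightOneSpectrum (𝓞 K)) (b : ℕ) (h : Fin D → (MvPolynomial (Fin m) (𝓞 K))[X]) : Prop :=
  ∀ t : Fin m → Residue v, Nat.card {x : Residue v // ∀ k, (fibre v (h k) t).eval x = 0} ≤ b

end

/-- `c` is the largest exponent of the generalised polynomial `∑ a x s ^ x`, `x ∈ G`; it is positive and not an integer and has a
positive coefficient. -/
def Admissible (G : Finset ℝ) (a : ℝ → ℝ) (c : ℝ) : Prop :=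
  c ∈ G ∧ (∀ x ∈ G, x ≤ c) ∧ 0 < c ∧ (∀ n : ℕ, c ≠ n) ∧ 0 < a c

/-- The integer part `⌊P_j(s)⌋` of the value of the generalised polynomial number `j` (and `0` if the value is negative, which is
the case for finitely many `s` only). -/
noncomputable def value {d : ℕ} (G : Fin d → Finset ℝ) (a : Fin d → ℝ → ℝ) (s : ℕ) (j : Fin d) : ℕ :=
  ⌊∑ x ∈ G j, a j x * (s : ℝ) ^ x⌋₊

section
variable {K : Type} [Field K] [NumberField K] {m D g n r : ℕ}

/-- The polynomials of the `n` factors of the product with the coefficients `c`. -/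
noncomputable def factors (F : Fin r → (MvPolynomial (Fin m) (𝓞 K))[X]) (h : Fin r → Fin D → (MvPolynomial (Fin m) (𝓞 K))[X])
    (e : Fin n → Fin r) (c : Fin D → 𝓞 K) (i : Fin n) : (MvPolynomial (Fin m) (𝓞 K))[X] := member (F (e i)) (h (e i)) c

/-- For all weights `w ∈ W` and all sets `R` of prime ideals which divide `Z(c)`: the sum of `w(v) (𝔅_v - ρ q_v) log(q_v)` over the
prime ideals `v ∉ R` with `q_v ≤ T` is at most `T ^ (1 + δ)` in absolute value for `y ≤ T ≤ N ^ κ`, and the Dirichlet polynomial over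
the `v ∉ R` with `T₁ < q_v ≤ T₂` is at most `T₁ ^ (1 + δ - Re z)` for `y ≤ T₁ ≤ T₂ ≤ N ^ κ`, `Re z ≥ 1 + δ` and
`|Im z| ≤ T₁ ^ B`. -/
def Good (ω : Fin g → 𝓞 K) (F : Fin r → (MvPolynomial (Fin m) (𝓞 K))[X]) (h : Fin r → Fin D → (MvPolynomial (Fin m) (𝓞 K))[X])
    (e : Fin n → Fin r) (Z : MvPolynomial (Fin D) (𝓞 K)) (δ κ : ℝ) (B y N : ℕ) (W : Set (HeightOneSpectrum (𝓞 K) → ℝ))
    (k : Fin (D * g) → ℕ) : Prop :=
  ∀ w ∈ W, ∀ R : Set (HeightOneSpectrum (𝓞 K)), (∀ v ∈ R, MvPolynomial.eval (coeff ω k) Z ∈ v.asIdeal) →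
    (∀ T : ℕ, y ≤ T → (T : ℝ) ≤ (N : ℝ) ^ κ →
      |partialSum (factors F h e (coeff ω k)) (rho e) w T R| ≤ (T : ℝ) ^ (1 + δ)) ∧
    (∀ T₁ T₂ : ℕ, y ≤ T₁ → T₁ ≤ T₂ → (T₂ : ℝ) ≤ (N : ℝ) ^ κ → ∀ z : ℂ, 1 + δ ≤ z.re → |z.im| ≤ (T₁ : ℝ) ^ B →
      ‖dirichlet (factors F h e (coeff ω k)) (rho e) w T₁ T₂ R z‖ ≤ (T₁ : ℝ) ^ (1 + δ - z.re))

open Classical in
/-- For all generalised polynomials `P_j(s) = ∑ a j x s ^ x` with distinct leading exponents which are positive and not integers and
have positive coefficients, all `δ > 0`, `A`, `B` there are `κ > 0` and `y₀` such that for all `y ≥ y₀`, all `N` and all sets `W`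
of at most `y ^ B` weights with values in `[-1, 1]`: the member with the numbers `n_j = ⌊P_j(s)⌋` is `Good` for all integers `s` in
`(N, 2 N]` with at most `N / y ^ A` exceptions, and for all primes `s` in `(N, 2 N]` with the exception of at most a proportion
`1 / y ^ A` of them. -/
def Holds (ω : Fin g → 𝓞 K) (F : Fin r → (MvPolynomial (Fin m) (𝓞 K))[X]) (h : Fin r → Fin D → (MvPolynomial (Fin m) (𝓞 K))[X])
    (e : Fin n → Fin r) (Z : MvPolynomial (Fin D) (𝓞 K)) : Prop :=
  ∀ (G : Fin (D * g) → Finset ℝ) (a : Fin (D * g) → ℝ → ℝ) (c : Fin (D * g) → ℝ), (∀ j, Admissible (G j) (a j) (c j)) →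
    Function.Injective c → ∀ δ : ℝ, 0 < δ → ∀ A B : ℕ,
    ∃ κ : ℝ, 0 < κ ∧ ∃ y₀ : ℕ, ∀ y N : ℕ, y₀ ≤ y → ∀ W : Set (HeightOneSpectrum (𝓞 K) → ℝ),
      W.Finite → W.ncard ≤ y ^ B → (∀ w ∈ W, ∀ v, |w v| ≤ 1) →
      (((Ioc N (2 * N)).filter fun s => ¬ Good ω F h e Z δ κ B y N W (value G a s)).card : ℝ) ≤ 1 / (y : ℝ) ^ A * N ∧
      ((((Ioc N (2 * N)).filter Nat.Prime).filter fun s => ¬ Good ω F h e Z δ κ B y N W (value G a s)).card : ℝ) ≤
        1 / (y : ℝ) ^ A * ((Ioc N (2 * N)).filter Nat.Prime).card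

lemma average_eq (F : Fin n → (MvPolynomial (Fin m) (𝓞 K))[X]) (v : HeightOneSpectrum (𝓞 K)) :
    average F v = Pool.Agent.T3h87.RP.BBn (Pool.Agent.N647.NG.mkv v) F := by
  have hq : norm v = Nat.card (𝓞 K ⧸ v.asIdeal) := by
    unfold norm
    rw [Pool.Agent.N842.HS.norm_card]
  unfold average Pool.Agent.T3h87.RP.BBn traceTwo traceOne
  rw [hq]
  rfl

lemma partialSum_eq (F : Fin n → (MvPolynomial (Fin m) (𝓞 K))[X]) (ρ : ℝ) (w : HeightOneSpectrum (𝓞 K) → ℝ) (T : ℕ)
    (R : Set (HeightOneSpectrum (𝓞 K))) [DecidablePred (fun v => v ∉ R)] :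
    partialSum F ρ w T R = ∑ v ∈ (Pool.Agent.N842.HS.VT K T).filter (fun v => v ∉ R),
      w v * ((Pool.Agent.T3h87.RP.BBn (Pool.Agent.N647.NG.mkv v) F - ρ * Ideal.absNorm v.asIdeal) *
        Real.log (Ideal.absNorm v.asIdeal)) := by
  classical
  have h1 : {v : HeightOneSpectrum (𝓞 K) | Ideal.absNorm v.asIdeal ≤ T ∧ v ∉ R} =
      (((Pool.Agent.N842.HS.VT K T).filter (fun v => v ∉ R) : Finset (HeightOneSpectrum (𝓞 K))) : Set (HeightOneSpectrum (𝓞 K))) := by
    ext v
    rw [mem_coe, mem_filter, Pool.Agent.N842.HS.mem_VT]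
    exact Iff.rfl
  unfold partialSum
  rw [h1, finsum_mem_coe_finset]
  refine sum_congr rfl fun v _ => ?_
  rw [average_eq]
  rfl

lemma dirichlet_eq (F : Fin n → (MvPolynomial (Fin m) (𝓞 K))[X]) (ρ : ℝ) (w : HeightOneSpectrum (𝓞 K) → ℝ) (T₁ T₂ : ℕ)
    (R : Set (HeightOneSpectrum (𝓞 K))) (z : ℂ) [DecidablePred (fun v => v ∉ R ∧ T₁ < Ideal.absNorm v.asIdeal)] :
    dirichlet F ρ w T₁ T₂ R z = ∑ v ∈ (Pool.Agent.N842.HS.VT K T₂).filter (fun v => v ∉ R ∧ T₁ < Ideal.absNorm v.asIdeal),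
      ((w v * ((Pool.Agent.T3h87.RP.BBn (Pool.Agent.N647.NG.mkv v) F - ρ * Ideal.absNorm v.asIdeal) *
        Real.log (Ideal.absNorm v.asIdeal)) : ℝ) : ℂ) * (Ideal.absNorm v.asIdeal : ℂ) ^ (-z) := by
  classical
  have h1 : {v : HeightOneSpectrum (𝓞 K) | T₁ < Ideal.absNorm v.asIdeal ∧ Ideal.absNorm v.asIdeal ≤ T₂ ∧ v ∉ R} =
      (((Pool.Agent.N842.HS.VT K T₂).filter (fun v => v ∉ R ∧ T₁ < Ideal.absNorm v.asIdeal) : Finset (HeightOneSpectrum (𝓞 K))) :
        Set (HeightOneSpectrum (𝓞 K))) := by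
    ext v
    rw [mem_coe, mem_filter, Pool.Agent.N842.HS.mem_VT]
    constructor
    · rintro ⟨h1, h2, h3⟩
      exact ⟨h2, h3, h1⟩
    · rintro ⟨h2, h3, h1⟩
      exact ⟨h1, h2, h3⟩
  unfold dirichlet
  rw [h1, finsum_mem_coe_finset]
  refine sum_congr rfl fun v _ => ?_
  rw [average_eq]
  unfold norm
  push_cast
  rfl

lemma rho_eq (e : Fin n → Fin r) : (rho e : ℝ) = (n : ℝ) + ((Pool.Agent.T3h87.RP.pairs n).filter fun p => e p.1 = e p.2).card := by
  unfold rho Pool.Agent.T3h87.RP.pairs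
  rw [filter_filter]
  push_cast
  rfl

lemma g_pos (ω : Fin g → 𝓞 K) (hω : Submodule.span ℤ (Set.range ω) = ⊤) : 1 ≤ g := by
  rcases Nat.eq_zero_or_pos g with h0 | h0
  · subst h0
    rw [Set.range_eq_empty, Submodule.span_empty] at hω
    have h1 : (1 : 𝓞 K) ∈ (⊥ : Submodule ℤ (𝓞 K)) := by
      rw [hω]
      exact Submodule.mem_top
    rw [Submodule.mem_bot] at h1
    exact absurd h1 one_ne_zero
  · exact h0

theorem holds_main (hm : 1 ≤ m) (hD : 1 ≤ D) (ω : Fin g → 𝓞 K) (hω : Submodule.span ℤ (Set.range ω) = ⊤)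
    (F : Fin r → (MvPolynomial (Fin m) (𝓞 K))[X]) (h : Fin r → Fin D → (MvPolynomial (Fin m) (𝓞 K))[X]) (e : Fin n → Fin r)
    (hF : ∀ j, (F j).Monic) (ho : ∀ j, Odd (F j).natDegree) (hh : ∀ j k, (h j k).natDegree < (F j).natDegree) (b : ℕ)
    (S : Set (HeightOneSpectrum (𝓞 K))) (hS : S.Finite) (hs : ∀ v ∉ S, ∀ i j, Separated v (i = j) (h i) (h j))
    (hb : ∀ v ∉ S, ∀ j, FewBasePoints v b (h j))
    (Z : MvPolynomial (Fin D) (𝓞 K)) (hZ : Z ≠ 0) : Holds ω F h e Z := by
  classical
  intro G a c ha hc δ hδ A B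
  have hDg : 1 ≤ D * g := Nat.one_le_iff_ne_zero.2 (Nat.mul_ne_zero (by omega) (by have := g_pos ω hω; omega))
  obtain ⟨κ, hκ, y₀, h1⟩ := Pool.Agent.T3h87.RP.prodT hm F h e hF ho hh b S hS hs hb Z hZ ω hω hDg (G := G) (a := a) (c := c) ha hc δ hδ A B
  refine ⟨κ, hκ, y₀, fun y N hy W hW hWc hW1 => ?_⟩
  refine h1 y N hy W hW hWc hW1 (fun k => Good ω F h e Z δ κ B y N W k) fun k hk w hw R hR => ?_
  obtain ⟨h2, h3⟩ := hk w hw R hR
  refine ⟨fun T hyT hTN => ?_, fun T₁ T₂ hyT hT hTN z hz1 hz2 => ?_⟩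
  · rw [partialSum_eq, rho_eq]
    exact h2 T hyT hTN
  · rw [dirichlet_eq, rho_eq]
    exact h3 T₁ T₂ hyT hT hTN z hz1 hz2

end

section explicit
variable {r : ℕ}

/-- The exponents `(j, a, α)` with `j ≤ r`, `a < d_j` and `α_l ≤ b` for `1 ≤ l ≤ m`. -/
abbrev Exponents (d : Fin r → ℕ) (b m : ℕ) : Type := Σ j : Fin r, Fin (d j) × (Fin m → Fin (b + 1))

/-- The polynomial `x ^ a t ^ α` for the parameter number `(j, a, α)` and the curve number `i = j`, and `0` for the other curves. -/
noncomputable def monomialOf (K : Type) [Field K] [NumberField K] {d : Fin r → ℕ} {b m : ℕ} (i : Fin r) (k : Exponents d b m) :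
    (MvPolynomial (Fin m) (𝓞 K))[X] :=
  if k.1 = i then X ^ (k.2.1 : ℕ) * C (∏ l, MvPolynomial.X l ^ (k.2.2 l : ℕ)) else 0

end explicit

/-- **Part 1.** Let `K` be a number field, `m ≥ 1`, `ω_1, ..., ω_g` generators of the group `𝓞 K` (for example an integral basis),
`F_1, ..., F_r` polynomials in `x` and `t = (t_1, ..., t_m)` over `𝓞 K` which are monic of odd degree in `x`, and `h_(j,k)`, `j ≤ r`,
`k ≤ D`, polynomials of degree less than that of `F_j` in `x`.  Suppose that for all but finitely many prime ideals `v` the `h_(i,k)`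
and `h_(j,k)` are `Separated`, for all `i` and `j`, and that on every fibre the `h_(j,k)` have at most `b` common zeros over the
residue field.  Let `e : {1, ..., n} → {1, ..., r}` be any map.  Then `Holds`, for every nonzero polynomial `Z`: the sums
`∑ w(v) (𝔅_v - ρ q_v) log(q_v)`, `q_v ≤ T`, for the fibrations in the products of the `n` curves
`y² = F_(e i)(t, x) + ∑ c_k h_(e i,k)(t, x)` with `c_k = ∑ ⌊P_(k,j)(s)⌋ ω_j` are at most `T ^ (1 + δ)` for `y ≤ T ≤ N ^ κ`, and the
Dirichlet polynomials `∑ w(v) (𝔅_v - ρ q_v) log(q_v) q_v ^ (-z)`, `T₁ < q_v ≤ T₂`, are at most `T₁ ^ (1 + δ - Re z)` for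
`y ≤ T₁ ≤ T₂ ≤ N ^ κ` and `Re z ≥ 1 + δ`, `|Im z| ≤ T₁ ^ B`, for almost all integers, and almost all primes, `s` in `(N, 2 N]`.

**Part 2.** This is the case for the products of the curves `C_1, ..., C_r : y² = x ^ d_j + G_j(t, x)`, each of them to an arbitrary
power, where the `G_j` are independent polynomials with all the monomials `x ^ a t ^ α` with `a < d_j` and `α_l ≤ b`, for odd
`d_j ≥ 3` and `b ≥ 1` (`E` is an enumeration of the parameters, the coefficients of all the `G_j`). -/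
theorem result :
    (∀ (K : Type) [Field K] [NumberField K] (m D g n r b : ℕ), 1 ≤ m → 1 ≤ D → ∀ ω : Fin g → 𝓞 K, Submodule.span ℤ (Set.range ω) = ⊤ →
      ∀ (F : Fin r → (MvPolynomial (Fin m) (𝓞 K))[X]) (h : Fin r → Fin D → (MvPolynomial (Fin m) (𝓞 K))[X]),
      (∀ j, (F j).Monic) → (∀ j, Odd (F j).natDegree) → (∀ j k, (h j k).natDegree < (F j).natDegree) →
      ∀ S : Set (HeightOneSpectrum (𝓞 K)), S.Finite →
      (∀ v ∉ S, ∀ i j, Separated v (i = j) (h i) (h j)) → (∀ v ∉ S, ∀ j, FewBasePoints v b (h j)) →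
      ∀ (e : Fin n → Fin r) (Z : MvPolynomial (Fin D) (𝓞 K)), Z ≠ 0 → Holds ω F h e Z) ∧
    (∀ (K : Type) [Field K] [NumberField K] (m D g n r b : ℕ) (d : Fin r → ℕ), 1 ≤ m → 1 ≤ b → (∀ j, Odd (d j) ∧ 3 ≤ d j) → 1 ≤ r →
      ∀ ω : Fin g → 𝓞 K, Submodule.span ℤ (Set.range ω) = ⊤ → ∀ E : Fin D ≃ Exponents d b m,
      ∀ (e : Fin n → Fin r) (Z : MvPolynomial (Fin D) (𝓞 K)), Z ≠ 0 →
        Holds ω (fun j => X ^ d j) (fun j k => monomialOf K j (E k)) e Z) := by
  refine ⟨fun K _ _ m D g n r b hm hD ω hω F h hF ho hh S hS hs hb e Z hZ => holds_main hm hD ω hω F h e hF ho hh b S hS hs hb Z hZ,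
    fun K _ _ m D g n r b d hm hb hd hr ω hω E e Z hZ => ?_⟩
  have hD : 1 ≤ D := by
    by_contra hcon
    have h0 : D = 0 := by omega
    subst h0
    exact (E.symm ⟨⟨0, hr⟩, ⟨0, by have := (hd ⟨0, hr⟩).2; omega⟩, fun _ => 0⟩).elim0
  refine holds_main hm hD ω hω _ _ e (fun j => monic_X_pow _) (fun j => ?_) (fun j k => ?_) 0 ∅ Set.finite_empty (fun v _ i j => ?_)
    (fun v _ j => ?_) Z hZ
  · rw [natDegree_X_pow]
    exact (hd j).1
  · rw [natDegree_X_pow]
    exact Pool.Agent.T3h87.RP.hp_deg d b m (𝓞 K) j (by have := (hd j).2; omega) (E k)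
  · exact Pool.Agent.T3h87.RP.sep4_p E (fun j => by have := (hd j).2; omega) hb v i j
  · exact Pool.Agent.T3h87.RP.few_p E (fun j => by have := (hd j).2; omega) v j

end Pool.Agent.Results.MP_6090f9_nt.ThinProducts
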